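import Pool.Agent.Helper611.KLim

set_option autoImplicit false
set_option linter.unusedSectionVars false

namespace Pool.Agent.Results.MP_21db46_co.BuchsbaumMono

/-- A finite simplicial complex with vertices in `V`; the empty face is a face. -/
structure SCx (V : Type) where
  faces : Finset (Finset V)
  empty_mem : ∅ ∈ faces
  down : ∀ F ∈ faces, ∀ G, G ⊆ F → G ∈ faces

section complexes
variable {V : Type} [Fintype V] [LinearOrder V]

/-- The largest number of vertices of a face, that is, the dimension plus one. -/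
def size (Δ : SCx V) : ℕ := Δ.faces.sup Finset.card

/-- The number of faces with `j` vertices, `f_{j-1}`. -/
def numFaces (Δ : SCx V) (j : ℕ) : ℕ := (Δ.faces.filter fun F => F.card = j).card

/-- The polynomial `∑_{i ≤ d} f_{i-1} x^i (1-x)^{d-i}`. -/
noncomputable def hPoly (d : ℕ) (Δ : SCx V) : Polynomial ℤ :=
  ∑ i ∈ Finset.range (d + 1),
    Polynomial.C (numFaces Δ i : ℤ) * Polynomial.X ^ i * (1 - Polynomial.X) ^ (d - i)

/-- The link of a face. -/
def link (Δ : SCx V) (F : Finset V) (hF : F ∈ Δ.faces) : SCx V where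
  faces := Δ.faces.filter fun G => Disjoint G F ∧ G ∪ F ∈ Δ.faces
  empty_mem := by
    rw [Finset.mem_filter, Finset.empty_union]
    exact ⟨Δ.empty_mem, Finset.disjoint_empty_left _, hF⟩
  down := by
    intro G hG H hH
    rw [Finset.mem_filter] at hG ⊢
    exact ⟨Δ.down G hG.1 H hH, Finset.disjoint_of_subset_left hH hG.2.1,
      Δ.down _ hG.2.2 _ (Finset.union_subset_union_left hH)⟩

/-- The boundary of a chain with coefficients in `k`: a chain assigns a coefficient to each
set of vertices, and the coefficient of `G` in the boundary is the sum over the vertices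
`x ∉ G` of `(-1)^(number of vertices of G before x)` times the coefficient of `G ∪ {x}`. -/
def boundary (k : Type) [Field k] (c : Finset V → k) (G : Finset V) : k :=
  ∑ x ∈ Gᶜ, ((-1 : k) ^ (G.filter (· < x)).card) * c (insert x G)

/-- Chains of `Γ` on the faces with `j` vertices. -/
def IsChain (k : Type) [Field k] (Γ : SCx V) (j : ℕ) (c : Finset V → k) : Prop :=
  ∀ G, c G ≠ 0 → G ∈ Γ.faces ∧ G.card = j

/-- The reduced homology of `Γ` over `k` vanishes in dimension `j - 1`: every cycle on the faces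
with `j` vertices is a boundary. -/
def HomologyVanishes (k : Type) [Field k] (Γ : SCx V) (j : ℕ) : Prop :=
  ∀ c : Finset V → k, IsChain k Γ j c → boundary k c = 0 →
    ∃ b : Finset V → k, IsChain k Γ (j + 1) b ∧ boundary k b = c

/-- Cohen–Macaulay complexes over `k` (Reisner's criterion). -/
def IsCM (k : Type) [Field k] (Γ : SCx V) : Prop :=
  ∀ (F : Finset V) (hF : F ∈ Γ.faces) (j : ℕ), j < size (link Γ F hF) →
    HomologyVanishes k (link Γ F hF) j

/-- Buchsbaum complexes over `k` of dimension `d - 1`: pure complexes with Cohen–Macaulay links of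
the nonempty faces. -/
structure IsBuchsbaum (k : Type) [Field k] (d : ℕ) (Δ : SCx V) : Prop where
  card_le : ∀ F ∈ Δ.faces, F.card ≤ d
  pure : ∀ F ∈ Δ.faces, ∃ G ∈ Δ.faces, F ⊆ G ∧ G.card = d
  link_cm : ∀ (F : Finset V) (hF : F ∈ Δ.faces), F.Nonempty → IsCM k (link Δ F hF)

end complexes

section subdivisions
variable {U V : Type} [Fintype U] [LinearOrder U] [Fintype V] [LinearOrder V]

/-- The geometric realization of `Δ'_F`, the faces `G` of `Δ'` with `σ G ⊆ F`. -/
def body (Δ' : SCx U) (σ : Finset U → Finset V) (F : Finset V) : Set (U → ℝ) :=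
  {x | (∀ u, 0 ≤ x u) ∧ ∑ u, x u = 1 ∧ ∃ G ∈ Δ'.faces, σ G ⊆ F ∧ ∀ u, x u ≠ 0 → u ∈ G}

/-- `(Δ', σ)` is a topological subdivision of `Δ`. -/
structure IsTopSubdivision (Δ : SCx V) (Δ' : SCx U) (σ : Finset U → Finset V) : Prop where
  /-- `σ` maps faces to faces -/
  maps : ∀ G ∈ Δ'.faces, σ G ∈ Δ.faces
  /-- `Δ'_F` is a subcomplex -/
  subcomplex : ∀ F ∈ Δ.faces, ∀ G ∈ Δ'.faces, σ G ⊆ F → ∀ H, H ⊆ G → σ H ⊆ F
  /-- the case `F = ∅`: `Δ'_∅` is the ball `{∅}` of dimension `-1` -/
  empty_face : ∀ G ∈ Δ'.faces, (σ G = ∅ ↔ G = ∅)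
  /-- `Δ'_F` is a ball of dimension `dim F`, and `σ⁻¹(F)` is the set of its interior faces, the
  faces whose relative interior lies in the interior of the ball -/
  ball : ∀ F ∈ Δ.faces, F.Nonempty →
    ∃ φ : body Δ' σ F ≃ₜ Metric.closedBall (0 : EuclideanSpace ℝ (Fin (F.card - 1))) 1,
      ∀ G ∈ Δ'.faces, G.Nonempty → σ G ⊆ F →
        (σ G = F ↔ ∀ y : body Δ' σ F, (∀ u, 0 < (y : U → ℝ) u ↔ u ∈ G) →
          ‖(φ y : EuclideanSpace ℝ (Fin (F.card - 1)))‖ < 1)

end subdivisions

section proof

open Pool.Agent.Helper611.ZBase Pool.Agent.Helper611.KRel Pool.Agent.Helper611.KTop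
  Pool.Agent.Helper611.KSub

variable {U V : Type} [Fintype U] [LinearOrder U] [Fintype V] [LinearOrder V]

/-- conversion -/
def toCx (Δ : SCx V) : Cx V := ⟨Δ.faces, Δ.empty_mem, Δ.down⟩

lemma boundary_eq {k : Type} [Field k] (c : Finset V → k) : boundary k c = bd c := by
  funext G
  unfold boundary bd
  refine Finset.sum_congr rfl fun x _ => ?_
  rw [zsmul_eq_mul]
  unfold sgn
  push_cast
  rfl

/-- homology of links and local homology -/
lemma acy_of_link {k : Type} [Field k] (Δ : SCx V) (τ : Finset V) (hτ : τ ∈ Δ.faces) (j : ℕ)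
    (h : HomologyVanishes k (link Δ τ hτ) j) : Acy (toCx Δ) k τ (j + τ.card) := by
  classical
  -- signs
  let ε : Finset V → ℤ := fun B => ∏ y ∈ B, sgn y τ
  have hε : ∀ B, ε B * ε B = 1 := by
    intro B
    show (∏ y ∈ B, sgn y τ) * (∏ y ∈ B, sgn y τ) = 1
    rw [← Finset.prod_mul_distrib]
    exact Finset.prod_eq_one fun y _ => sgn_mul_self y τ
  have hεi : ∀ (x : V) (B : Finset V), x ∉ B → ε (insert x B) = sgn x τ * ε B := by
    intro x B hx
    exact Finset.prod_insert hx
  have hsg : ∀ (x : V) (B : Finset V), Disjoint B τ → sgn x (B ∪ τ) = sgn x τ * sgn x B := by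
    intro x B hB
    unfold sgn
    rw [Finset.filter_union, Finset.card_union_of_disjoint, pow_add, mul_comm]
    exact Finset.disjoint_filter_filter hB
  intro c hc hbd
  obtain ⟨b, hb, hb2⟩ := h (fun B => if Disjoint B τ then ε B • c (B ∪ τ) else 0)
    (by
      intro B hB
      by_cases hd : Disjoint B τ
      · simp only [if_pos hd] at hB
        have h1 : c (B ∪ τ) ≠ 0 := fun h0 => hB (by rw [h0, smul_zero])
        obtain ⟨a1, a2, a3⟩ := hc _ h1
        rw [Finset.card_union_of_disjoint hd] at a3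
        refine ⟨Finset.mem_filter.2 ⟨Δ.down _ a1 _ Finset.subset_union_left, hd, a1⟩, by omega⟩
      · simp only [if_neg hd] at hB
        exact absurd rfl hB)
    (by
      rw [boundary_eq]
      funext B
      by_cases hd : Disjoint B τ
      · have h1 : bd (fun B => if Disjoint B τ then ε B • c (B ∪ τ) else 0) B =
            ε B • bd c (B ∪ τ) := by
          unfold bd
          rw [Finset.smul_sum]
          have h2 : (B ∪ τ)ᶜ ⊆ Bᶜ := Finset.compl_subset_compl.2 Finset.subset_union_left
          rw [← Finset.sum_subset h2]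
          · refine Finset.sum_congr rfl fun x hx => ?_
            have hx' := Finset.mem_compl.1 hx
            have hxB : x ∉ B := fun h => hx' (Finset.mem_union_left _ h)
            have hxτ : x ∉ τ := fun h => hx' (Finset.mem_union_right _ h)
            have h3 : Disjoint (insert x B) τ := by
              rw [Finset.disjoint_insert_left]
              exact ⟨hxτ, hd⟩
            show sgn x B • (if Disjoint (insert x B) τ then ε (insert x B) • c (insert x B ∪ τ)
              else 0) = _
            rw [if_pos h3, hεi x B hxB, hsg x B hd, Finset.insert_union, smul_smul, smul_smul]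
            congr 1
            ring
          · intro x hx hx2
            have hxτ : x ∈ τ := by
              by_contra h3
              exact hx2 (Finset.mem_compl.2 fun h4 => (Finset.mem_union.1 h4).elim
                (Finset.mem_compl.1 hx) h3)
            show sgn x B • (if Disjoint (insert x B) τ then ε (insert x B) • c (insert x B ∪ τ)
              else 0) = _
            rw [if_neg, smul_zero]
            rw [Finset.disjoint_insert_left]
            exact fun h3 => h3.1 hxτ
        rw [h1, hbd _ Finset.subset_union_right, smul_zero]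
        rfl
      · refine bd_eq_zero _ _ fun x _ => if_neg fun h3 => hd ?_
        exact Finset.disjoint_of_subset_left (Finset.subset_insert _ _) h3)
  rw [boundary_eq] at hb2
  refine ⟨fun F => if τ ⊆ F then ε (F \ τ) • b (F \ τ) else 0, ?_, ?_⟩
  · intro F hF
    by_cases hτF : τ ⊆ F
    · simp only [if_pos hτF] at hF
      have h1 : b (F \ τ) ≠ 0 := fun h0 => hF (by rw [h0, smul_zero])
      obtain ⟨a1, a2⟩ := hb _ h1
      have a3 := (Finset.mem_filter.1 a1).2.2
      rw [Finset.sdiff_union_of_subset hτF] at a3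
      refine ⟨a3, hτF, ?_⟩
      have := Finset.card_sdiff_add_card_eq_card hτF
      omega
    · simp only [if_neg hτF] at hF
      exact absurd rfl hF
  · intro ρ hρ
    have h1 : bd (fun F => if τ ⊆ F then ε (F \ τ) • b (F \ τ) else 0) ρ =
        ε (ρ \ τ) • bd b (ρ \ τ) := by
      unfold bd
      rw [Finset.smul_sum]
      have h2 : ρᶜ ⊆ (ρ \ τ)ᶜ := Finset.compl_subset_compl.2 Finset.sdiff_subset
      rw [← Finset.sum_subset h2]
      · refine Finset.sum_congr rfl fun x hx => ?_
        have hx' := Finset.mem_compl.1 hx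
        have hxτ : x ∉ τ := fun h => hx' (hρ h)
        have h3 : insert x ρ \ τ = insert x (ρ \ τ) := Finset.insert_sdiff_of_notMem _ hxτ
        have h4 : x ∉ ρ \ τ := fun h => hx' (Finset.mem_sdiff.1 h).1
        show sgn x ρ • (if τ ⊆ insert x ρ then ε (insert x ρ \ τ) • b (insert x ρ \ τ) else 0) = _
        rw [if_pos (hρ.trans (Finset.subset_insert _ _)), h3, hεi x _ h4, smul_smul, smul_smul]
        congr 1
        have h5 := hsg x (ρ \ τ) Finset.sdiff_disjoint
        rw [Finset.sdiff_union_of_subset hρ] at h5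
        rw [h5]
        have h6 := sgn_mul_self x τ
        calc sgn x τ * sgn x (ρ \ τ) * (sgn x τ * ε (ρ \ τ)) =
            (sgn x τ * sgn x τ) * (ε (ρ \ τ) * sgn x (ρ \ τ)) := by ring
          _ = _ := by rw [h6, one_mul]
      · intro x hx hx2
        have hxρ : x ∈ ρ := by simpa using hx2
        have hxτ : x ∈ τ := by
          by_contra h3
          exact (Finset.mem_compl.1 hx) (Finset.mem_sdiff.2 ⟨hxρ, h3⟩)
        have h3 : b (insert x (ρ \ τ)) = 0 := by
          by_contra h4
          have h5 := (Finset.mem_filter.1 (hb _ h4).1).2.1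
          exact Finset.disjoint_left.1 h5 (Finset.mem_insert_self _ _) hxτ
        rw [h3, smul_zero, smul_zero]
    rw [h1, hb2]
    simp only [if_pos (Finset.sdiff_disjoint : Disjoint (ρ \ τ) τ)]
    rw [smul_smul, hε, one_smul, Finset.sdiff_union_of_subset hρ]

lemma acy_of_buchsbaum {k : Type} [Field k] (d : ℕ) (Δ : SCx V) (h : IsBuchsbaum k d Δ)
    (τ : Finset V) (i : ℕ) (hne : τ.Nonempty) (hi : i < d) : Acy (toCx Δ) k τ i := by
  classical
  by_cases hτ : τ ∈ Δ.faces
  · rcases Nat.lt_or_ge i τ.card with hlt | hge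
    · refine acy_trivial _ τ i fun G _ hG => ?_
      have := Finset.card_le_card hG
      omega
    · obtain ⟨j, rfl⟩ : ∃ j, i = j + τ.card := ⟨i - τ.card, by omega⟩
      refine acy_of_link Δ τ hτ j ?_
      have h1 := h.link_cm τ hτ hne ∅ (link Δ τ hτ).empty_mem j
      have h2 : link (link Δ τ hτ) ∅ (link Δ τ hτ).empty_mem = link Δ τ hτ := by
        have : (link (link Δ τ hτ) ∅ (link Δ τ hτ).empty_mem).faces = (link Δ τ hτ).faces := by
          ext G
          constructor
          · intro hG
            exact (Finset.mem_filter.1 hG).1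
          · intro hG
            exact Finset.mem_filter.2 ⟨hG, Finset.disjoint_empty_right _, by
              rw [Finset.union_empty]; exact hG⟩
        cases hL : link (link Δ τ hτ) ∅ (link Δ τ hτ).empty_mem
        cases hM : link Δ τ hτ
        rw [hL, hM] at this
        simp only at this
        subst this
        rfl
      rw [h2] at h1
      apply h1
      obtain ⟨G, hG, hτG, hGd⟩ := h.pure τ hτ
      have h3 : G \ τ ∈ (link Δ τ hτ).faces := by
        refine Finset.mem_filter.2 ⟨Δ.down G hG _ Finset.sdiff_subset, Finset.sdiff_disjoint, ?_⟩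
        rw [Finset.sdiff_union_of_subset hτG]
        exact hG
      have h4 : (G \ τ).card ≤ size (link Δ τ hτ) := Finset.le_sup (f := Finset.card) h3
      have h5 := Finset.card_sdiff_add_card_eq_card hτG
      omega
  · exact acy_trivial _ τ i fun G hG h1 _ => hτ (Δ.down G hG _ h1)

lemma sd_of_sub (Δ : SCx V) (Δ' : SCx U) (σ : Finset U → Finset V)
    (h : IsTopSubdivision Δ Δ' σ) : SD (toCx Δ) (toCx Δ') σ := by
  classical
  have he0 : σ ∅ = ∅ := (h.empty_face ∅ Δ'.empty_mem).2 rfl
  have hmono : ∀ G ∈ Δ'.faces, ∀ H, H ⊆ G → σ H ⊆ σ G := fun G hG H hH =>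
    h.subcomplex (σ G) (h.maps G hG) G hG (Finset.Subset.refl _) H hH
  refine ⟨h.maps, he0, fun G hG => (h.empty_face G hG).1, hmono, ?_⟩
  intro F hF hne
  obtain ⟨φ, hφ⟩ := h.ball F hF hne
  have hres : ∀ G, G ∈ (res (toCx Δ') σ F).faces ↔ G ∈ Δ'.faces ∧ σ G ⊆ F := by
    intro G
    constructor
    · intro h1
      have h2 := Finset.mem_filter.1 h1
      refine ⟨h2.1, ?_⟩
      rcases h2.2 with h3 | h3
      · rw [h3, he0]
        exact Finset.empty_subset _
      · exact h3 G (Finset.Subset.refl _)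
    · rintro ⟨h1, h2⟩
      exact Finset.mem_filter.2 ⟨h1, Or.inr fun H hH => (hmono G h1 H hH).trans h2⟩
  have e : realization (res (toCx Δ') σ F) = body Δ' σ F := by
    ext x
    constructor
    · rintro ⟨h1, h2, G, hG, h3⟩
      have h4 := (hres G).1 hG
      refine ⟨h1, h2, G, h4.1, h4.2, fun j hj => ?_⟩
      by_contra h5
      exact hj (h3 j h5)
    · rintro ⟨h1, h2, G, hG, hGW, h3⟩
      refine ⟨h1, h2, G, (hres G).2 ⟨hG, hGW⟩, fun j hj => ?_⟩
      by_contra h5
      exact hj (h3 j h5)
  refine ⟨(Homeomorph.setCongr e).trans φ, ?_⟩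
  intro τ hτ hτne h1 h2
  have h3 := mt (hφ τ hτ hτne h1).2 h2
  push Not at h3
  obtain ⟨y, hy, hy2⟩ := h3
  refine ⟨⟨y.1, by rw [e]; exact y.2⟩, hy, ?_⟩
  have h4 : ‖(φ y : EuclideanSpace ℝ (Fin (F.card - 1)))‖ ≤ 1 := by
    have := (φ y).2
    rwa [Metric.mem_closedBall, dist_zero_right] at this
  exact le_antisymm h4 hy2

lemma coeff_term (d j i : ℕ) (hj : j ≤ d) (hi : i ≤ d) (f : ℤ) :
    (Polynomial.C f * Polynomial.X ^ j * (1 - Polynomial.X : Polynomial ℤ) ^ (d - j)).coeff i =
      if j ≤ i then (-1 : ℤ) ^ (i - j) * ((((d - j).choose (i - j) : ℕ) : ℤ) * f) else 0 := by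
  rw [mul_assoc, Polynomial.coeff_C_mul, Polynomial.coeff_X_pow_mul']
  by_cases h : j ≤ i
  · rw [if_pos h, if_pos h]
    have h1 : (1 - Polynomial.X : Polynomial ℤ) = -(Polynomial.X + Polynomial.C (-1)) := by
      rw [Polynomial.C_neg, Polynomial.C_1]; ring
    rw [h1, neg_pow, show ((-1 : Polynomial ℤ) ^ (d - j)) = Polynomial.C ((-1 : ℤ) ^ (d - j)) by simp,
      Polynomial.coeff_C_mul, Polynomial.coeff_X_add_C_pow]
    have h2 : d - j = (d - j - (i - j)) + (i - j) := by omega
    have h3 : (-1 : ℤ) ^ (d - j) * (-1) ^ (d - j - (i - j)) = (-1) ^ (i - j) := by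
      conv_lhs => rw [h2]
      have h4 : ((d - j - (i - j)) + (i - j) - (i - j)) = d - j - (i - j) := by omega
      rw [h4, pow_add, mul_comm ((-1 : ℤ) ^ (d - j - (i - j))) _, mul_assoc, ← mul_pow]
      simp
    rw [← mul_assoc ((-1 : ℤ) ^ (d - j)), h3]
    ring
  · rw [if_neg h, if_neg h, mul_zero]

lemma coeff_h (d i : ℕ) (hi : i ≤ d) (Δ : SCx V) : (hPoly d Δ).coeff i =
    ∑ j ∈ Finset.range (i + 1), (-1 : ℤ) ^ (i - j) * ((((d - j).choose (i - j) : ℕ) : ℤ) *
      (numFaces Δ j : ℤ)) := by
  unfold hPoly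
  rw [Polynomial.finsetSum_coeff]
  rw [Finset.sum_congr rfl (fun j hj => coeff_term d j i
    (by have := Finset.mem_range.1 hj; omega) hi (numFaces Δ j : ℤ)), ← Finset.sum_filter]
  refine Finset.sum_congr ?_ fun j _ => rfl
  ext j
  simp only [Finset.mem_filter, Finset.mem_range]
  omega

lemma coeff_h_big (d i : ℕ) (hi : d < i) (Δ : SCx V) : (hPoly d Δ).coeff i = 0 := by
  unfold hPoly
  rw [Polynomial.finsetSum_coeff]
  refine Finset.sum_eq_zero fun j hj => ?_
  have hj' := Finset.mem_range.1 hj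
  apply Polynomial.coeff_eq_zero_of_natDegree_lt
  have h1 : (1 - Polynomial.X : Polynomial ℤ).natDegree ≤ 1 := by
    refine (Polynomial.natDegree_sub_le _ _).trans ?_
    simp
  have h2 : ((1 - Polynomial.X : Polynomial ℤ) ^ (d - j)).natDegree ≤ d - j := by
    refine Polynomial.natDegree_pow_le.trans ?_
    calc (d - j) * (1 - Polynomial.X : Polynomial ℤ).natDegree ≤ (d - j) * 1 :=
          Nat.mul_le_mul_left _ h1
      _ = d - j := mul_one _
  have h3 : (Polynomial.C (numFaces Δ j : ℤ) * Polynomial.X ^ j : Polynomial ℤ).natDegree ≤ j :=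
    Polynomial.natDegree_C_mul_X_pow_le _ _
  have h4 := Polynomial.natDegree_mul_le
    (p := (Polynomial.C (numFaces Δ j : ℤ) * Polynomial.X ^ j : Polynomial ℤ))
    (q := (1 - Polynomial.X : Polynomial ℤ) ^ (d - j))
  omega

end proof

/-- **Monotonicity of h-vectors.** If `Δ` is a Buchsbaum complex of dimension `d - 1` over a field
`k` and `Δ'` is any topological subdivision of `Δ`, then `h_i(Δ) ≤ h_i(Δ')` for every `i`. -/
theorem result (k : Type) [Field k] (V U : Type) [Fintype V] [LinearOrder V] [Fintype U]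
    [LinearOrder U] (d : ℕ) (Δ : SCx V) (Δ' : SCx U) (σ : Finset U → Finset V)
    (hΔ : IsBuchsbaum k d Δ) (hσ : IsTopSubdivision Δ Δ' σ) (i : ℕ) :
    (hPoly d Δ).coeff i ≤ (hPoly d Δ').coeff i := by
  classical
  rcases Nat.lt_or_ge d i with hi | hi
  · rw [coeff_h_big d i hi, coeff_h_big d i hi]
  rw [coeff_h d i hi, coeff_h d i hi]
  rcases Nat.eq_zero_or_pos i with rfl | hpos
  · have h0 : ∀ {W : Type} [Fintype W] [LinearOrder W] (Γ : SCx W), numFaces Γ 0 = 1 := by
      intro W _ _ Γ
      unfold numFaces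
      have : (Γ.faces.filter fun F => F.card = 0) = {∅} := by
        ext F
        simp only [Finset.mem_filter, Finset.card_eq_zero, Finset.mem_singleton]
        constructor
        · exact fun h => h.2
        · rintro rfl
          exact ⟨Γ.empty_mem, rfl⟩
      rw [this, Finset.card_singleton]
    rw [Finset.sum_range_one, Finset.sum_range_one, h0 Δ, h0 Δ']
  · obtain ⟨G, _, _, hG⟩ := hΔ.pure ∅ Δ.empty_mem
    obtain ⟨v, _⟩ : G.Nonempty := Finset.card_pos.1 (by omega)
    have : Inhabited V := ⟨v⟩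
    exact Pool.Agent.Helper611.KLim.main (d := d) (sd_of_sub Δ Δ' σ hσ) hΔ.card_le
      (fun τ j hτ hj => acy_of_buchsbaum d Δ hΔ τ j hτ hj) i hi

end Pool.Agent.Results.MP_21db46_co.BuchsbaumMono
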